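import Pool.Agent.Helper56.CP.Result

namespace Pool.Agent.Results.MP_4561bf_nt.ClusterPrimeBound

open Finset Pool.Agent.Helper56.CP

/-- Upper bound for the number of cluster primes, with the constant `exp γ / (4 C₂) > 2 / 3`. -/
theorem result : ∀ c : ℝ, (c ≤ 2 / 3 ∨ c < Real.exp Real.eulerMascheroniConstant / (4 * C₂)) →
    ∃ x₀ : ℝ, ∀ x : ℕ, x₀ ≤ x →
    (({p ∈ range (x + 1) | Clu p} : Set ℕ).ncard : ℝ) ≤
      x * Real.exp (- c * (Real.log (Real.log x)) ^ 2) :=
  cluster_bound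

end Pool.Agent.Results.MP_4561bf_nt.ClusterPrimeBound
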